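import Pool.Agent.N891.KS.Stm

open Filter Topology Pool.Agent.N891.KS

namespace Pool.Agent.N68.KS

theorem hD (p c s t : ℝ) (h : c + s * t ≠ 0) :
    HasDerivAt (fun t : ℝ => (c + s * t) ^ p) (s * p * (c + s * t) ^ (p - 1)) t := by
  have h1 : HasDerivAt (fun t : ℝ => c + s * t) s t := by
    simpa using ((hasDerivAt_id t).const_mul s).const_add c
  exact h1.rpow_const (Or.inl h)

theorem pos_ev (c s : ℝ) (hc : 0 < c) : ∀ᶠ t in 𝓝 (0 : ℝ), 0 < c + s * t := by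
  have h : ContinuousAt (fun t : ℝ => c + s * t) 0 := by fun_prop
  have := h.eventually (lt_mem_nhds (a := 0) (b := c + s * 0) (by simpa using hc))
  exact this

theorem t_CALC : S_CALC := by
  intro K hK F hF
  set G : ℝ → ℝ := fun t => K * ((27 + 1 * t) ^ (2 / 3 : ℝ) + (8 + (-1) * t) ^ (2 / 3 : ℝ) +
    (216 + 1 * t) ^ (2 / 3 : ℝ)) with hG
  set G1 : ℝ → ℝ := fun t => K * (1 * (2 / 3 : ℝ) * (27 + 1 * t) ^ (2 / 3 - 1 : ℝ) +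
    (-1) * (2 / 3 : ℝ) * (8 + (-1) * t) ^ (2 / 3 - 1 : ℝ) +
    1 * (2 / 3 : ℝ) * (216 + 1 * t) ^ (2 / 3 - 1 : ℝ)) with hG1
  have e1 := pos_ev 27 1 (by norm_num)
  have e2 := pos_ev 8 (-1) (by norm_num)
  have e3 := pos_ev 216 1 (by norm_num)
  have hsq : ∀ x : ℝ, 0 < x → (x ^ (1 / 3 : ℝ)) ^ 2 = x ^ (2 / 3 : ℝ) := by
    intro x hx
    rw [← Real.rpow_natCast, ← Real.rpow_mul hx.le]
    norm_num
  have hFG : F =ᶠ[𝓝 0] G := by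
    filter_upwards [hF, e1, e2, e3] with t h h1 h2 h3
    rw [h, hG]
    have h2' : 8 - t = 8 + (-1) * t := by ring
    have h1' : 27 + t = 27 + 1 * t := by ring
    have h3' : 216 + t = 216 + 1 * t := by ring
    rw [h1', h2', h3', hsq _ h1, hsq _ h2, hsq _ h3]
  have hd1 : ∀ᶠ t in 𝓝 (0 : ℝ), HasDerivAt G (G1 t) t := by
    filter_upwards [e1, e2, e3] with t h1 h2 h3
    exact (((hD (2 / 3) 27 1 t h1.ne').add (hD (2 / 3) 8 (-1) t h2.ne')).add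
      (hD (2 / 3) 216 1 t h3.ne')).const_mul K
  have hdG : deriv G =ᶠ[𝓝 0] G1 := hd1.mono fun t ht => ht.deriv
  have hdF : deriv F =ᶠ[𝓝 0] G1 := hFG.deriv.trans hdG
  have hd2 : HasDerivAt G1 (K * (1 * (2 / 3 : ℝ) * (1 * (2 / 3 - 1) * (27 + 1 * 0) ^ (2 / 3 - 1 - 1 : ℝ)) +
    (-1) * (2 / 3 : ℝ) * ((-1) * (2 / 3 - 1) * (8 + (-1) * 0) ^ (2 / 3 - 1 - 1 : ℝ)) +
    1 * (2 / 3 : ℝ) * (1 * (2 / 3 - 1) * (216 + 1 * 0) ^ (2 / 3 - 1 - 1 : ℝ)))) 0 := by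
    exact ((((hD (2 / 3 - 1) 27 1 0 (by norm_num)).const_mul _).add
      ((hD (2 / 3 - 1) 8 (-1) 0 (by norm_num)).const_mul _)).add
      ((hD (2 / 3 - 1) 216 1 0 (by norm_num)).const_mul _)).const_mul K
  refine ⟨?_, ?_, ?_⟩
  · refine ContDiffAt.congr_of_eventuallyEq ?_ hFG
    have a1 : ContDiffAt ℝ 2 (fun t : ℝ => (27 + 1 * t) ^ (2 / 3 : ℝ)) 0 :=
      ContDiffAt.rpow_const_of_ne (by fun_prop) (by norm_num)
    have a2 : ContDiffAt ℝ 2 (fun t : ℝ => (8 + (-1) * t) ^ (2 / 3 : ℝ)) 0 :=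
      ContDiffAt.rpow_const_of_ne (by fun_prop) (by norm_num)
    have a3 : ContDiffAt ℝ 2 (fun t : ℝ => (216 + 1 * t) ^ (2 / 3 : ℝ)) 0 :=
      ContDiffAt.rpow_const_of_ne (by fun_prop) (by norm_num)
    exact contDiffAt_const.mul ((a1.add a2).add a3)
  · rw [hdF.eq_of_nhds, hG1]
    have b1 : (27 : ℝ) ^ (2 / 3 - 1 : ℝ) = 1 / 3 := by
      rw [show (27 : ℝ) = 3 ^ (3 : ℝ) by norm_num, ← Real.rpow_mul (by norm_num),
        show (3 : ℝ) * (2 / 3 - 1) = -1 by norm_num, Real.rpow_neg_one]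
      norm_num
    have b2 : (8 : ℝ) ^ (2 / 3 - 1 : ℝ) = 1 / 2 := by
      rw [show (8 : ℝ) = 2 ^ (3 : ℝ) by norm_num, ← Real.rpow_mul (by norm_num),
        show (3 : ℝ) * (2 / 3 - 1) = -1 by norm_num, Real.rpow_neg_one]
      norm_num
    have b3 : (216 : ℝ) ^ (2 / 3 - 1 : ℝ) = 1 / 6 := by
      rw [show (216 : ℝ) = 6 ^ (3 : ℝ) by norm_num, ← Real.rpow_mul (by norm_num),
        show (3 : ℝ) * (2 / 3 - 1) = -1 by norm_num, Real.rpow_neg_one]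
      norm_num
    simp only [mul_zero, add_zero]
    rw [b1, b2, b3]
    ring
  · rw [hdF.deriv_eq, hd2.deriv]
    simp only [mul_zero, add_zero]
    have c1 : 0 < (27 : ℝ) ^ (2 / 3 - 1 - 1 : ℝ) := Real.rpow_pos_of_pos (by norm_num) _
    have c2 : 0 < (8 : ℝ) ^ (2 / 3 - 1 - 1 : ℝ) := Real.rpow_pos_of_pos (by norm_num) _
    have c3 : 0 < (216 : ℝ) ^ (2 / 3 - 1 - 1 : ℝ) := Real.rpow_pos_of_pos (by norm_num) _
    have : 0 < K * ((27 : ℝ) ^ (2 / 3 - 1 - 1 : ℝ) + (8 : ℝ) ^ (2 / 3 - 1 - 1 : ℝ) +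
      (216 : ℝ) ^ (2 / 3 - 1 - 1 : ℝ)) := by positivity
    nlinarith [this]

end Pool.Agent.N68.KS
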